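import Pool.Agent.H58.CT.Targets

/-!
# Cyclic terms: the simple case
-/

set_option autoImplicit false
set_option linter.unusedVariables false

namespace Pool.Agent.H40.CT

open Pool.Agent.H58.CT

section shift

variable {A : Type} {p : ℕ}

theorem shift_nat {R : Set (ZMod p → A)} (hsh : ∀ r ∈ R, sh r ∈ R) (m : ℕ) :
    ∀ r ∈ R, (fun j : ZMod p => r (j + (m : ZMod p))) ∈ R := by
  induction m with
  | zero =>
    intro r hr
    have : (fun j : ZMod p => r (j + ((0 : ℕ) : ZMod p))) = r := by
      funext j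
      simp
    rw [this]
    exact hr
  | succ m ih =>
    intro r hr
    have h := ih _ (hsh r hr)
    have e : (fun j : ZMod p => r (j + ((m + 1 : ℕ) : ZMod p)))
        = (fun j : ZMod p => sh r (j + (m : ZMod p))) := by
      funext j
      change r _ = r _
      congr 1
      push_cast
      ring
    rw [e]
    exact h

theorem shift_all [Fact p.Prime] {R : Set (ZMod p → A)} (hsh : ∀ r ∈ R, sh r ∈ R) (m : ZMod p) :
    ∀ r ∈ R, (fun j : ZMod p => r (j + m)) ∈ R := by
  intro r hr
  have h := shift_nat hsh m.val r hr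
  rwa [ZMod.natCast_zmod_val] at h

theorem inj_all [Fact p.Prime] {R : Set (ZMod p → A)} (hsh : ∀ r ∈ R, sh r ∈ R) (i : ZMod p)
    (k : ℕ) (hinj : ∀ r ∈ R, ∀ r' ∈ R, win i k r = win i k r' → r = r') (i' : ZMod p) :
    ∀ r ∈ R, ∀ r' ∈ R, win i' k r = win i' k r' → r = r' := by
  intro r hr r' hr' h
  have h1 := hinj _ (shift_all hsh (i' - i) r hr) _ (shift_all hsh (i' - i) r' hr') (by
    funext j
    have h2 := congrFun h j
    change r (i + _ + (i' - i)) = r' (i + _ + (i' - i))
    change r (i' + _) = r' (i' + _) at h2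
    have e : i + ((j : ℕ) : ZMod p) + (i' - i) = i' + ((j : ℕ) : ZMod p) := by ring
    rw [e]
    exact h2)
  funext j
  have h2 := congrFun h1 (j - (i' - i))
  simpa using h2

theorem sh_image [Fact p.Prime] {R : Set (ZMod p → A)} (hsh : ∀ r ∈ R, sh r ∈ R) :
    (fun r : ZMod p → A => sh r) '' R = R := by
  ext r
  constructor
  · rintro ⟨s, hs, rfl⟩
    exact hsh s hs
  · intro hr
    refine ⟨_, shift_all hsh (-1) r hr, ?_⟩
    funext j
    change r (j + 1 + -1) = r j
    congr 1
    ring

theorem co_univ [Fact p.Prime] {R : Set (ZMod p → A)} (hsh : ∀ r ∈ R, sh r ∈ R)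
    (hs : ∀ a : A, ∃ r ∈ R, r 0 = a) (j : ZMod p) :
    (fun r : ZMod p → A => r j) '' R = Set.univ := by
  refine Set.eq_univ_of_forall fun a => ?_
  obtain ⟨r, hr, h0⟩ := hs a
  refine ⟨_, shift_all hsh (-j) r hr, ?_⟩
  change r (j + -j) = a
  rw [add_neg_cancel]
  exact h0

end shift

theorem pf_SIM (hLKD : T_LKD) (hPRD : T_PRD) (hCNN : T_CNN) (hCNT : T_CNT) (hLBK : T_LBK)
    (hAMP : T_AMP) : T_SIM := by
  intro 𝒞 A _ _ p _ R hNP hSmp hcard hR
  have hne : R.Nonempty := hR.ne
  obtain ⟨r₀, hr₀⟩ := hne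
  haveI : Nonempty A := ⟨r₀ 0⟩
  haveI : NeZero p := ⟨(Fact.out : p.Prime).ne_zero⟩
  -- the coordinates of minimal absorbing subuniverses
  have hco : ∀ N, Mn 𝒞 N R → ∀ j : ZMod p, Mn 𝒞 (co j N) (Set.univ : Set A) := by
    intro N hN j
    have h := hN.image (hm_eval (𝒞 := 𝒞) j)
    rw [co_univ hR.shift hR.surj j] at h
    exact h
  have hAFco : AF 𝒞 (Set.univ : Set A) → ∀ N, Mn 𝒞 N R → ∀ j : ZMod p, co j N = Set.univ :=
    fun hAF N hN j => hAF.2.2 _ (hco N hN j).1
  -- the conclusion, if all coordinates are equal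
  have fin : ¬ AF 𝒞 (Set.univ : Set A) → ∀ N, Mn 𝒞 N R → (∀ j : ZMod p, co j N = co 0 N) →
      ∃ M : Set A, Sub 𝒞 M ∧ M ≠ Set.univ ∧ ∃ r ∈ R, ∀ j, r j ∈ M := by
    intro hAF N hN hall
    obtain ⟨n, hn⟩ := hN.1.1
    refine ⟨co 0 N, (hco N hN 0).2.2.1, ?_, n, hN.1.2.2.1 hn, fun j => ?_⟩
    · intro e
      apply hAF
      rw [← e]
      exact (hco N hN 0).2
    · rw [← hall j]
      exact ⟨n, hn, rfl⟩
  by_cases hcase : ∃ k : ℕ, 1 ≤ k ∧ k < p ∧
      ¬ ∀ i : ZMod p, Lnk R (win i k) (fun r => r (i + (k : ZMod p)))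
  · classical
    obtain ⟨h1, h2, h3⟩ := Nat.find_spec hcase
    have hmin := fun m (hm : m < Nat.find hcase) => Nat.find_min hcase hm
    generalize Nat.find hcase = k at h1 h2 h3 hmin
    have hbelow : LkBelow R k := by
      intro j hj1 hj2 i
      by_contra hcon
      exact hmin j hj2 ⟨hj1, hj2.trans h2, fun h => hcon (h i)⟩
    obtain ⟨i, hi⟩ := not_forall.1 h3
    have hinj : ∀ r ∈ R, ∀ r' ∈ R, win i k r = win i k r' → r = r' :=
      (hLKD 𝒞 A p R hSmp hR i k).resolve_left hi
    by_cases hAF : AF 𝒞 (Set.univ : Set A)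
    · left
      obtain ⟨N, hN⟩ := exists_mn hR.sub hR.ne
      refine hCNT A p R hcard hR.shift i k hinj fun x => ?_
      obtain ⟨n, hn, hx⟩ := hPRD 𝒞 A p R hNP hR k hbelow N hN i x
        (fun j => by rw [hAFco hAF N hN]; exact Set.mem_univ _)
      exact ⟨n, hN.1.2.2.1 hn, hx⟩
    · right
      have hone : ∀ N N', Mn 𝒞 N R → Mn 𝒞 N' R → N = N' := by
        intro N N' hN hN'
        have h := hCNN 𝒞 A p R hNP hR k h2 hbelow N N' hN hN'
        clear hN'
        induction h with
        | refl => rfl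
        | tail _ hst ih =>
          obtain ⟨hM, hM', i', n, hn, n', hn', hw⟩ := hst
          have e := inj_all hR.shift i k hinj i' n (hM.1.2.2.1 hn) n' (hM'.1.2.2.1 hn') hw
          rw [ih]
          refine hM.eq hM' ⟨n, hn, ?_⟩
          rw [e]
          exact hn'
      obtain ⟨N, hN⟩ := exists_mn hR.sub hR.ne
      have hshN : (fun r : ZMod p → A => sh r) '' N = N := by
        have h := hN.image (hm_sh (𝒞 := 𝒞) (A := A) (p := p))
        rw [sh_image hR.shift] at h
        exact hone _ _ h hN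
      have hstep : ∀ j : ZMod p, co (j + 1) N = co j N := by
        intro j
        have e : co j ((fun r : ZMod p → A => sh r) '' N) = co (j + 1) N := by
          unfold co
          rw [Set.image_image]
          rfl
        rw [← e, hshN]
      refine fin hAF N hN ?_
      have hn : ∀ m : ℕ, co ((m : ℕ) : ZMod p) N = co 0 N := by
        intro m
        induction m with
        | zero => simp
        | succ m ih =>
          rw [← ih]
          push_cast
          exact hstep _
      intro j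
      have h := hn j.val
      rwa [ZMod.natCast_zmod_val] at h
  · have hP : ∀ k : ℕ, 1 ≤ k → k < p → ∀ i : ZMod p,
        Lnk R (win i k) (fun r => r (i + (k : ZMod p))) := by
      intro k hk1 hk2
      by_contra hcon
      exact hcase ⟨k, hk1, hk2, hcon⟩
    by_cases hAF : AF 𝒞 (Set.univ : Set A)
    · left
      obtain ⟨N, hN⟩ := exists_mn hR.sub hR.ne
      obtain ⟨n, hn, hx⟩ := hPRD 𝒞 A p R hNP hR p (fun j h1 h2 i => hP j h1 h2 i) N hN 0
        (fun _ => r₀ 0) (fun j => by rw [hAFco hAF N hN]; exact Set.mem_univ _)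
      refine ⟨r₀ 0, ?_⟩
      have e : (fun _ : ZMod p => r₀ 0) = n := by
        funext j
        have h := congrFun hx ⟨j.val, ZMod.val_lt j⟩
        change n (0 + ((j.val : ℕ) : ZMod p)) = r₀ 0 at h
        rw [ZMod.natCast_zmod_val, zero_add] at h
        exact h.symm
      rw [e]
      exact hN.1.2.2.1 hn
    · right
      have hp1 : p - 1 < p := Nat.sub_lt (Fact.out : p.Prime).pos one_pos
      have hb : LkBelow R (p - 1) := fun j h1 h2 i => hP j h1 (h2.trans hp1) i
      obtain ⟨V, hV, hSm, hMix⟩ := hAMP 𝒞 A p R hR.ne hR.sub hR.shift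
        (fun N N' hN hN' => hCNN 𝒞 A p R hNP hR (p - 1) hp1 hb N N' hN hN')
      have hS : Sub 𝒞 (shS R) := by
        intro I _ t x hx
        refine ⟨hR.sub I t _ fun i => (hx i).1, hR.sub I t _ fun i => (hx i).2.1, ?_⟩
        intro j hj
        change Alg.int t (fun i => (x i).2 j) = Alg.int t (fun i => (x i).1 (j + 1))
        congr 1
        funext i
        exact (hx i).2.2 j hj
      obtain ⟨N, hN, x, hx, y, hy, hxy⟩ := hLBK 𝒞 (ZMod p → A) (shS R) V hS hV.1 hV.2.1 hSm hMix
      have hNR : Mn 𝒞 N R := hN.trans hV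
      have hstep : ∀ j : ZMod p, j ≠ -1 → co (j + 1) N = co j N := by
        intro j hj
        refine (hco N hNR (j + 1)).eq (hco N hNR j) ⟨x (j + 1), ⟨x, hx, rfl⟩, y, hy, ?_⟩
        exact hxy.2.2 j hj
      refine fin hAF N hNR ?_
      have hn : ∀ m : ℕ, m < p → co ((m : ℕ) : ZMod p) N = co 0 N := by
        intro m
        induction m with
        | zero => intro _; simp
        | succ m ih =>
          intro hm
          rw [← ih (by omega)]
          push_cast
          refine hstep _ fun e => ?_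
          have h0 : (((m + 1 : ℕ)) : ZMod p) = 0 := by
            push_cast
            rw [e]
            ring
          rw [ZMod.natCast_eq_zero_iff] at h0
          exact absurd (Nat.le_of_dvd (Nat.succ_pos m) h0) (by omega)
      intro j
      have h := hn j.val (ZMod.val_lt j)
      rwa [ZMod.natCast_zmod_val] at h

end Pool.Agent.H40.CT
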